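import Mathlib
import Pool.Agent.X73.OPG.Main

set_option autoImplicit false

/-! Ergodic measures and arbitrary one-parameter groups of the real group.

`G_∞ = ∏_v SL(n_v, ℝ)` (`PG n`) acts continuously on a Polish space `X`, and a group `A` (discrete
or not) acts on `X` by Borel automorphisms such that `a · (g · x) = (π(a) g π(a)⁻¹) · (a · x)` for
`g` in `G_∞`, where `π` is a homomorphism of `A` to the group `T⁺` of the elements of `G_∞` with
diagonal components and positive entries, with dense image in `T⁺`. -/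

namespace Pool.Agent.Results.MP_67388f_an.OneParameterGroups

open MeasureTheory Set Filter Matrix
open Pool.Agent.TH277.MR

section defs

variable {I : Type*} {n : I → ℕ} {X : Type*} [MeasurableSpace X] [MulAction (PG n) X]

/-- `h` is the one-parameter group of `G_∞` with generator `Z = (Z_v)`: the component of `h s` at
`v` is the matrix `exp (s Z_v)`. -/
def IsOneParam (Z : ∀ v : I, Matrix (Fin (n v)) (Fin (n v)) ℝ) (h : ℝ → PG n) : Prop :=
  ∀ s v, (h s v : Matrix (Fin (n v)) (Fin (n v)) ℝ) = NormedSpace.exp (s • Z v)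

/-- `ν` is invariant under `g`. -/
def Inv (ν : Measure X) (g : PG n) : Prop := ν.map (fun x => g • x) = ν

/-- `g` is the root element `1 + x E_{ij}` of the factor `v`. -/
def IsRoot (v : I) (i j : Fin (n v)) (x : ℝ) (g : PG n) : Prop :=
  (∀ w, w ≠ v → g w = 1) ∧ (g v : Matrix (Fin (n v)) (Fin (n v)) ℝ) = Matrix.transvection i j x

/-- `ν` is invariant under `h s` for all `s`, and under the root elements `1 + x E_{ij}`, `x ∈ ℝ`, of
the factor `v` for all `v` and `i ≠ j` such that `Z_v` has a non-zero entry at `(i, j)`. -/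
def Rigid (ν : Measure X) (Z : ∀ v : I, Matrix (Fin (n v)) (Fin (n v)) ℝ) (h : ℝ → PG n) : Prop :=
  (∀ s, Inv ν (h s)) ∧
    ∀ v i j, i ≠ j → Z v i j ≠ 0 → ∀ x g, IsRoot v i j x g → Inv ν g

/-- For every finite measure `lam` there is a Borel set `E` of full `ν`-measure such that
`h s · x ∈ E` only for a Lebesgue-null set of times `s`, for `lam`-almost all `x`. -/
def Thin (ν : Measure X) (h : ℝ → PG n) : Prop :=
  ∀ lam : Measure X, IsFiniteMeasure lam → ∃ E, MeasurableSet E ∧ ν Eᶜ = 0 ∧
    ∀ᵐ x ∂lam, (volume : Measure ℝ) {s : ℝ | h s • x ∈ E} = 0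

end defs

/-- Let `ν` be an `A`-invariant ergodic probability measure on `X`.

(1) For every one-parameter group `h` of `G_∞`, with generator `Z`, exactly one of the statements
`Rigid ν Z h` and `Thin ν h` holds. If `ν` is not invariant under `h`, then `ν` is singular to every
finite measure on `X` which is invariant under `h`, and singular to its translate by `h s` for
almost every real `s`.

(2) Let `H` be a subgroup of `G_∞` generated by one-parameter groups. If `ν` is not singular to some
finite `H`-invariant measure, then `ν` is `H`-invariant, and `Rigid ν Z h` holds for all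
one-parameter groups `h` in `H`. -/
theorem result {I : Type*} [Fintype I] [DecidableEq I] (n : I → ℕ)
    {X : Type*} [TopologicalSpace X] [PolishSpace X] [MeasurableSpace X] [BorelSpace X]
    [MulAction (PG n) X] [ContinuousSMul (PG n) X]
    {A : Type*} [Group A] [MulAction A X] [MeasurableConstSMul A X] (π : A →* PG n)
    (hpos : ∀ (a : A) (v : I), IsPosDiag (π a v))
    (hact : ∀ (a : A) (g : PG n) (x : X), a • g • x = (π a * g * (π a)⁻¹) • a • x)
    (hdense : ∀ t : PG n, (∀ v, IsPosDiag (t v)) → t ∈ closure (Set.range π))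
    (ν : Measure X) [IsProbabilityMeasure ν] [ErgodicSMul A X ν] :
    (∀ (Z : ∀ v : I, Matrix (Fin (n v)) (Fin (n v)) ℝ) (h : ℝ → PG n), IsOneParam Z h →
      (Rigid ν Z h ∨ Thin ν h) ∧ ¬ (Rigid ν Z h ∧ Thin ν h) ∧
      ((¬ ∀ s, Inv ν (h s)) →
        (∀ rho : Measure X, IsFiniteMeasure rho → (∀ s, Inv rho (h s)) → ν ⟂ₘ rho) ∧
        ∀ᵐ s : ℝ, ν ⟂ₘ ν.map fun x => h s • x)) ∧
    ∀ H : Subgroup (PG n),
      H ≤ Subgroup.closure {g | ∃ Z h, IsOneParam Z h ∧ (∀ s, h s ∈ H) ∧ ∃ s, g = h s} →
      ∀ rho : Measure X, IsFiniteMeasure rho → (∀ g ∈ H, Inv rho g) → ¬ ν ⟂ₘ rho →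
        (∀ g ∈ H, Inv ν g) ∧
        ∀ Z h, IsOneParam Z h → (∀ s, h s ∈ H) → Rigid ν Z h := by
  have hinv : ∀ a : A, ν.map (fun x => a • x) = ν := by
    intro a
    exact (measurePreserving_smul a ν).map_eq
  have herg : Erg (maps A X) ν := by
    intro E hE hf
    have h1 := (inferInstance : ErgodicSMul A X ν).aeconst_of_forall_preimage_smul_ae_eq hE
      (fun a => hf _ ⟨a, rfl⟩)
    rcases eventuallyConst_set.1 h1 with h2 | h2
    · right
      exact h2
    · left
      rw [measure_eq_zero_iff_ae_notMem]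
      exact h2
  have hπ : DenseAct X π := ⟨hpos, hact, hdense⟩
  have hmeas : ∀ h : ℝ → PG n, Continuous h → Measurable fun p : ℝ × X => h p.1 • p.2 :=
    fun h hc => ((hc.comp continuous_fst).smul continuous_snd).measurable
  -- rigidity from a measure which is not singular to the average
  have hrig : ∀ (Z : ∀ v : I, Matrix (Fin (n v)) (Fin (n v)) ℝ) (h : ℝ → PG n),
      IsOneParam Z h → ∀ lam : Measure X, IsFiniteMeasure lam →
      ¬ ν ⟂ₘ avg (fun s x => h s • x) lam → Rigid ν Z h := by
    intro Z h hh lam _ hns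
    obtain ⟨h1, h2⟩ := Pool.Agent.X73.OPG.dich hπ hinv herg hh hns
    refine ⟨h1, fun v i j hij hZ x g hg => ?_⟩
    have h3 : g = sg v (tv hij x) := by
      funext w
      by_cases hw : w = v
      · subst hw
        rw [sg_same]
        exact Subtype.ext hg.2
      · rw [sg_ne hw, hg.1 w hw]
    rw [h3]
    exact h2 v i j hij hZ x
  have hdich : ∀ (Z : ∀ v : I, Matrix (Fin (n v)) (Fin (n v)) ℝ) (h : ℝ → PG n),
      IsOneParam Z h → Rigid ν Z h ∨ Thin ν h := by
    intro Z h hh
    by_cases hR : Rigid ν Z h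
    · exact Or.inl hR
    · right
      intro lam hlam
      have hs : ν ⟂ₘ avg (fun s (x : X) => h s • x) lam :=
        by_contra fun hns => hR (hrig Z h hh lam hlam hns)
      exact Pool.Agent.X73.OPG.exists_of_sing
        (u := fun s (x : X) => h s • x) (hmeas h (Pool.Agent.X73.OPG.Gen.cont hh)) hs
  have hsing : ∀ (Z : ∀ v : I, Matrix (Fin (n v)) (Fin (n v)) ℝ) (h : ℝ → PG n),
      IsOneParam Z h → Thin ν h → ∀ rho : Measure X, IsFiniteMeasure rho →
      (∀ s, Inv rho (h s)) → ν ⟂ₘ rho := by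
    intro Z h hh hT rho hrho hi
    obtain ⟨E, h1, h2, h3⟩ := hT rho hrho
    exact Pool.Agent.X73.OPG.sing_of_inv (u := fun s (x : X) => h s • x)
      (hmeas h (Pool.Agent.X73.OPG.Gen.cont hh)) hi h1 h2 h3
  refine ⟨fun Z h hh => ⟨hdich Z h hh, ?_, ?_⟩, ?_⟩
  · rintro ⟨h1, h2⟩
    have h3 := hsing Z h hh h2 ν inferInstance h1.1
    rw [Measure.MutuallySingular.self_iff] at h3
    exact IsProbabilityMeasure.ne_zero ν h3
  · intro hni
    have hT : Thin ν h := (hdich Z h hh).resolve_left fun h1 => hni h1.1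
    refine ⟨hsing Z h hh hT, ?_⟩
    obtain ⟨E, h1, h2, h3⟩ := hT ν inferInstance
    exact Pool.Agent.X73.OPG.sing_translates (u := fun s (x : X) => h s • x)
      (hmeas h (Pool.Agent.X73.OPG.Gen.cont hh)) h1 h2 h3
  · intro H hH rho hrho hi hns
    have hR : ∀ Z h, IsOneParam Z h → (∀ s, h s ∈ H) → Rigid ν Z h := by
      intro Z h hh hs
      refine (hdich Z h hh).resolve_right fun hT => hns ?_
      exact hsing Z h hh hT rho hrho fun s => hi _ (hs s)
    refine ⟨fun g hg => ?_, hR⟩
    have h1 : Subgroup.closure {g | ∃ Z h, IsOneParam Z h ∧ (∀ s, h s ∈ H) ∧ ∃ s, g = h s} ≤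
        stabG (G := PG n) ν := by
      rw [Subgroup.closure_le]
      rintro g ⟨Z, h, hh, hs, s, rfl⟩
      exact (hR Z h hh hs).1 s
    exact h1 (hH hg)

end Pool.Agent.Results.MP_67388f_an.OneParameterGroups
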